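import Pool.Agent.Lib.helper4.RegKit

set_option autoImplicit false

namespace Pool.Agent.H.MP_3489e4_al

@[ext] structure K where
  p : ℤ
  z : ℤ
  q : ℤ
  e : Bool
deriving DecidableEq

instance : Mul K :=
  ⟨fun a b => ⟨a.p + b.p, a.z + b.z, a.q + (if a.e then -b.q else b.q), xor a.e b.e⟩⟩
instance : One K := ⟨⟨0, 0, 0, false⟩⟩
instance : Inv K := ⟨fun a => ⟨-a.p, -a.z, if a.e then a.q else -a.q, a.e⟩⟩

@[simp] theorem mul_p (a b : K) : (a * b).p = a.p + b.p := rfl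
@[simp] theorem mul_z (a b : K) : (a * b).z = a.z + b.z := rfl
@[simp] theorem mul_q (a b : K) : (a * b).q = a.q + (if a.e then -b.q else b.q) := rfl
@[simp] theorem mul_e (a b : K) : (a * b).e = xor a.e b.e := rfl
@[simp] theorem one_p : (1 : K).p = 0 := rfl
@[simp] theorem one_z : (1 : K).z = 0 := rfl
@[simp] theorem one_q : (1 : K).q = 0 := rfl
@[simp] theorem one_e : (1 : K).e = false := rfl
@[simp] theorem inv_p (a : K) : (a⁻¹).p = -a.p := rfl
@[simp] theorem inv_z (a : K) : (a⁻¹).z = -a.z := rfl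
@[simp] theorem inv_q (a : K) : (a⁻¹).q = if a.e then a.q else -a.q := rfl
@[simp] theorem inv_e (a : K) : (a⁻¹).e = a.e := rfl

instance : Group K := Group.ofLeftAxioms
  (by
    rintro ⟨p, z, q, e⟩ ⟨p', z', q', e'⟩ ⟨p'', z'', q'', e''⟩
    ext
    · simp; ring
    · simp; ring
    · cases e <;> cases e' <;> simp <;> ring
    · simp)
  (by rintro ⟨p, z, q, e⟩; ext <;> simp)
  (by rintro ⟨p, z, q, e⟩; cases e <;> ext <;> simp)

theorem mk_mul_f (p z q p' z' q' : ℤ) (e : Bool) :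
    (⟨p, z, q, false⟩ : K) * ⟨p', z', q', e⟩ = ⟨p + p', z + z', q + q', e⟩ := by ext <;> simp
theorem mk_mul_t (p z q p' z' q' : ℤ) (e : Bool) :
    (⟨p, z, q, true⟩ : K) * ⟨p', z', q', e⟩ = ⟨p + p', z + z', q - q', !e⟩ := by
  ext <;> simp [sub_eq_add_neg]
theorem mk_inv_f (p z q : ℤ) : (⟨p, z, q, false⟩ : K)⁻¹ = ⟨-p, -z, -q, false⟩ := rfl
theorem mk_inv_t (p z q : ℤ) : (⟨p, z, q, true⟩ : K)⁻¹ = ⟨-p, -z, q, true⟩ := rfl

def Box (c : ℤ) : Set K :=
  {g | -c ≤ g.p ∧ g.p ≤ c ∧ -c ≤ g.z ∧ g.z ≤ c ∧ -c ≤ g.q ∧ g.q ≤ c}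

theorem box_finite (c : ℤ) : (Box c).Finite := by
  have h : ((Set.Icc (-c) c) ×ˢ ((Set.Icc (-c) c) ×ˢ ((Set.Icc (-c) c) ×ˢ
      (Set.univ : Set Bool)))).Finite :=
    (Set.finite_Icc _ _).prod ((Set.finite_Icc _ _).prod ((Set.finite_Icc _ _).prod
      Set.finite_univ))
  refine (h.image (fun x => (⟨x.1, x.2.1, x.2.2.1, x.2.2.2⟩ : K))).subset ?_
  rintro ⟨p, z, q, e⟩ ⟨h1, h2, h3, h4, h5, h6⟩
  exact ⟨(p, z, q, e), ⟨⟨h1, h2⟩, ⟨h3, h4⟩, ⟨h5, h6⟩, trivial⟩, rfl⟩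

def tt : K := ⟨0, 0, 0, true⟩

def Step (p z q : ℤ) : Prop :=
  -1 ≤ p ∧ p ≤ 1 ∧ -1 ≤ z ∧ z ≤ 1 ∧ -1 ≤ q ∧ q ≤ 1 ∧ -1 ≤ z - q ∧ z - q ≤ 1 ∧
    ¬ (p = 0 ∧ z = 0 ∧ q = 0)

def IsL (g : K) : Prop := g = tt ∨ (g.e = false ∧ Step g.p g.z g.q)

theorem isL_finite : {g | IsL g}.Finite := by
  refine (box_finite 1).subset ?_
  rintro g (rfl | ⟨_, h⟩)
  · simp [Box, tt]
  · simp only [Step] at h
    simp only [Box, Set.mem_ofPred_eq]; omega

noncomputable def X : Finset K := isL_finite.toFinset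

theorem mem_X (g : K) : g ∈ X ↔ IsL g := Set.Finite.mem_toFinset _

abbrev A : Type := {x // x ∈ X}

def lt : A := ⟨tt, (mem_X _).mpr (Or.inl rfl)⟩

theorem A_cases (a : A) : a = lt ∨ ∃ p z q, a.1 = ⟨p, z, q, false⟩ ∧ Step p z q := by
  obtain ⟨⟨p, z, q, e⟩, hx⟩ := a
  rcases (mem_X _).mp hx with h | ⟨h1, h2⟩
  · left; exact Subtype.ext h
  · right; refine ⟨p, z, q, ?_, h2⟩
    simp only at h1; subst h1; rfl

theorem X_inv : ∀ x ∈ X, x⁻¹ ∈ X := by
  intro x hx
  rw [mem_X]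
  rcases A_cases ⟨x, hx⟩ with h | ⟨p, z, q, h, h2⟩
  · have : x = tt := congrArg Subtype.val h
    rw [this]; left; rfl
  · simp only at h
    rw [h, mk_inv_f]
    right
    refine ⟨rfl, ?_⟩
    simp only [Step] at h2 ⊢; omega

def val (w : List A) : K := (w.map Subtype.val).prod

@[simp] theorem val_nil : val [] = 1 := rfl
@[simp] theorem val_cons (x : A) (w : List A) : val (x :: w) = x.1 * val w := by simp [val]
@[simp] theorem val_append (u w : List A) : val (u ++ w) = val u * val w := by simp [val]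
@[simp] theorem val_replicate (i : ℕ) (x : A) : val (List.replicate i x) = x.1 ^ i := by
  simp [val]
@[simp] theorem lt_val : lt.1 = ⟨0, 0, 0, true⟩ := rfl

def Bx (p z q n : ℤ) : Prop := -n ≤ p ∧ p ≤ n ∧ -n ≤ z ∧ z ≤ n ∧ -n ≤ q ∧ q ≤ n

def Le (g : K) (n : ℤ) : Prop :=
  if g.e then Bx g.p g.z g.q (n - 1)
  else ((Bx g.p g.z g.q n ∧ -n ≤ g.z - g.q ∧ g.z - g.q ≤ n) ∨ Bx g.p g.z g.q (n - 2))

theorem Le_f (p z q n : ℤ) : Le ⟨p, z, q, false⟩ n ↔
    ((Bx p z q n ∧ -n ≤ z - q ∧ z - q ≤ n) ∨ Bx p z q (n - 2)) := by simp [Le]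
theorem Le_t (p z q n : ℤ) : Le ⟨p, z, q, true⟩ n ↔ Bx p z q (n - 1) := by simp [Le]

theorem Le_val (w : List A) : Le (val w) w.length := by
  induction w with
  | nil => simp [Le, Bx]
  | cons x w ih =>
    rw [val_cons]
    generalize val w = g at ih
    obtain ⟨p, z, q, e⟩ := g
    simp only [List.length_cons]
    rcases A_cases x with rfl | ⟨a, b, c, h, h2⟩
    · cases e <;> simp only [lt_val, mk_mul_t, Bool.not_true, Bool.not_false, Le_f, Le_t, Bx] at ih ⊢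
        <;> omega
    · rw [h]
      cases e <;> simp only [mk_mul_f, Le_f, Le_t, Bx, Step] at ih h2 ⊢ <;> omega

theorem Le_mono {g : K} {n m : ℤ} (h : Le g n) (hm : n ≤ m) : Le g m := by
  obtain ⟨p, z, q, e⟩ := g
  cases e <;> simp only [Le_f, Le_t, Bx] at h ⊢ <;> omega

def Geo (w : List A) : Prop := ∀ w' : List A, val w' = val w → w.length ≤ w'.length

theorem geo_of (w : List A) (h : ¬ Le (val w) (w.length - 1)) : Geo w := by
  intro w' hw
  by_contra h1
  exact h (Le_mono (hw ▸ Le_val w') (by omega))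

def cl (x i : ℤ) : ℤ := max (-i) (min x i)

section Track
variable (f : A → ℤ)

def S (u : List A) : ℤ := (u.map f).sum
def Z (u : List A) : ℕ := u.countP (fun a => f a = 0)

@[simp] theorem S_nil : S f [] = 0 := rfl
@[simp] theorem S_cons (x : A) (u : List A) : S f (x :: u) = f x + S f u := by simp [S]
@[simp] theorem S_append (w u : List A) : S f (w ++ u) = S f w + S f u := by simp [S]
theorem S_reverse (u : List A) : S f u.reverse = S f u := by simp [S]
theorem Z_reverse (u : List A) : Z f u.reverse = Z f u := by simp [Z]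

theorem S_ge (c : ℤ) (u : List A) (h : ∀ y ∈ u, c ≤ f y) : c * u.length ≤ S f u := by
  induction u with
  | nil => simp
  | cons x u ih =>
    have h1 := ih (fun y hy => h y (List.mem_cons_of_mem _ hy))
    have h2 := h x List.mem_cons_self
    rw [S_cons, List.length_cons]; push_cast; linarith

theorem S_le (c : ℤ) (u : List A) (h : ∀ y ∈ u, f y ≤ c) : S f u ≤ c * u.length := by
  induction u with
  | nil => simp
  | cons x u ih =>
    have h1 := ih (fun y hy => h y (List.mem_cons_of_mem _ hy))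
    have h2 := h x List.mem_cons_self
    rw [S_cons, List.length_cons]; push_cast; linarith

theorem track (hf : ∀ a, -1 ≤ f a ∧ f a ≤ 1) (u : List A)
    (h : u.Pairwise (fun x y => f y ≠ 0 → f y = f x)) :
    (S f u).natAbs + Z f u = u.length ∧ ∀ i : ℕ, S f (u.take i) = cl (S f u) i := by
  induction u with
  | nil => simp [Z, cl]
  | cons x u ih =>
    rw [List.pairwise_cons] at h
    obtain ⟨a1, a2⟩ := ih h.2
    have b1 : 0 ≤ f x → 0 ≤ S f u := fun hx => by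
      simpa using S_ge f 0 u (fun y hy => by have := h.1 y hy; omega)
    have b2 : f x ≤ 0 → S f u ≤ 0 := fun hx => by
      simpa using S_le f 0 u (fun y hy => by have := h.1 y hy; omega)
    have b3 := hf x
    constructor
    · simp only [Z, List.countP_cons, S_cons, List.length_cons, decide_eq_true_eq] at a1 ⊢
      split_ifs <;> omega
    · intro i
      cases i with
      | zero => simp [cl]
      | succ i =>
        rw [List.take_succ_cons, S_cons, S_cons, a2 i]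
        simp only [cl]; push_cast; omega

theorem track' (hf : ∀ a, -1 ≤ f a ∧ f a ≤ 1) (u : List A)
    (h : u.Pairwise (fun x y => f x ≠ 0 → f x = f y)) :
    (S f u).natAbs + Z f u = u.length ∧
      ∀ i : ℕ, S f (u.take i) = S f u - cl (S f u) (u.length - i : ℕ) := by
  obtain ⟨a1, a2⟩ := track f hf u.reverse (List.pairwise_reverse.mpr h)
  rw [S_reverse, Z_reverse, List.length_reverse] at a1
  refine ⟨a1, fun i => ?_⟩
  have h1 := a2 (u.length - i)
  rw [S_reverse, ← List.reverse_drop, S_reverse] at h1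
  have h2 : S f u = S f (u.take i) + S f (u.drop i) := by rw [← S_append, List.take_append_drop]
  omega

end Track

def fp (a : A) : ℤ := a.1.p
def fz (a : A) : ℤ := a.1.z
def fq (a : A) : ℤ := a.1.q

theorem f_bd (a : A) : (-1 ≤ fp a ∧ fp a ≤ 1) ∧ (-1 ≤ fz a ∧ fz a ≤ 1) ∧ (-1 ≤ fq a ∧ fq a ≤ 1) := by
  rcases A_cases a with rfl | ⟨p, z, q, h, h2⟩
  · simp [fp, fz, fq]
  · simp only [fp, fz, fq, h, Step] at h2 ⊢; omega

theorem val_free (u : List A) (h : ∀ y ∈ u, y.1.e = false) :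
    val u = ⟨S fp u, S fz u, S fq u, false⟩ := by
  induction u with
  | nil => rfl
  | cons x u ih =>
    rw [val_cons, ih (fun y hy => h y (List.mem_cons_of_mem _ hy))]
    have := h x List.mem_cons_self
    ext <;> simp [this, fp, fz, fq]

def Shape (u : List A) : Prop :=
  (∀ y ∈ u, y.1.e = false) ∧ u.Pairwise (fun x y => fp y ≠ 0 → fp y = fp x) ∧
    u.Pairwise (fun x y => fz y ≠ 0 → fz y = fz x) ∧
    u.Pairwise (fun x y => fq x ≠ 0 → fq x = fq y)

theorem build (n : ℕ) : ∀ p z q : ℤ, Bx p z q n →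
    (p = n ∨ p = -n ∨ (n : ℤ) ≤ z.natAbs + q.natAbs) →
    ((0 ≤ z ∧ 0 ≤ q) ∨ (z ≤ 0 ∧ q ≤ 0) ∨ (z.natAbs + q.natAbs : ℤ) ≤ n) →
    ∃ u : List A, Shape u ∧ u.length = n ∧ S fp u = p ∧ S fz u = z ∧ S fq u = q ∧
      ∀ y ∈ u, (0 ≤ p → 0 ≤ fp y) ∧ (p ≤ 0 → fp y ≤ 0) ∧ (0 ≤ z → 0 ≤ fz y) ∧ (z ≤ 0 → fz y ≤ 0) ∧
        (0 ≤ q → 0 ≤ fq y) ∧ (q ≤ 0 → fq y ≤ 0) ∧ (q = n → fq y = 1) ∧ (q = -n → fq y = -1) ∧
        ((n : ℤ) ≤ z.natAbs + q.natAbs → fz y ≠ 0 ∨ fq y ≠ 0) := by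
  induction n with
  | zero =>
    intro p z q h _ _
    simp only [Bx] at h
    refine ⟨[], by simp [Shape], rfl, ?_, ?_, ?_, by simp⟩ <;> simp <;> omega
  | succ n ih =>
    intro p z q h1 h2 h3
    simp only [Bx] at h1
    obtain ⟨c, hc⟩ : ∃ c : ℤ, (q = n + 1 ∧ c = 1) ∨ (q = -(n + 1) ∧ c = -1) ∨
        (q ≠ n + 1 ∧ q ≠ -(n + 1) ∧ c = 0) := by
      by_cases a : q = n + 1
      · exact ⟨1, Or.inl ⟨a, rfl⟩⟩
      by_cases b : q = -(n + 1)
      · exact ⟨-1, Or.inr (Or.inl ⟨b, rfl⟩)⟩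
      exact ⟨0, Or.inr (Or.inr ⟨a, b, rfl⟩)⟩
    obtain ⟨a, ha⟩ : ∃ a : ℤ, (0 < p ∧ a = 1) ∨ (p < 0 ∧ a = -1) ∨ (p = 0 ∧ a = 0) := by
      rcases lt_trichotomy 0 p with h | h | h
      · exact ⟨1, Or.inl ⟨h, rfl⟩⟩
      · exact ⟨0, Or.inr (Or.inr ⟨h.symm, rfl⟩)⟩
      · exact ⟨-1, Or.inr (Or.inl ⟨h, rfl⟩)⟩
    obtain ⟨b, hb⟩ : ∃ b : ℤ, (0 < z ∧ b = 1) ∨ (z < 0 ∧ b = -1) ∨ (z = 0 ∧ b = 0) := by
      rcases lt_trichotomy 0 z with h | h | h
      · exact ⟨1, Or.inl ⟨h, rfl⟩⟩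
      · exact ⟨0, Or.inr (Or.inr ⟨h.symm, rfl⟩)⟩
      · exact ⟨-1, Or.inr (Or.inl ⟨h, rfl⟩)⟩
    have hs : Step a b c := by
      simp only [Step]
      clear ih
      refine ⟨by clear * - ha; omega, by clear * - ha; omega, by clear * - hb; omega,
        by clear * - hb; omega, by clear * - hc; omega, by clear * - hc; omega,
        by clear ha h2; omega, by clear ha h2; omega, by clear h3; omega⟩
    let x : A := ⟨⟨a, b, c, false⟩, (mem_X _).mpr (Or.inr ⟨rfl, hs⟩)⟩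
    have x1 : fp x = a := rfl
    have x2 : fz x = b := rfl
    have x3 : fq x = c := rfl
    obtain ⟨u, ⟨s1, s2, s3, s4⟩, l, e1, e2, e3, hy⟩ := ih (p - a) (z - b) (q - c)
      (by
        simp only [Bx]
        clear * - h1 ha hb hc
        refine ⟨by clear hb hc; omega, by clear hb hc; omega, by clear ha hc; omega,
          by clear ha hc; omega, by clear ha hb; omega, by clear ha hb; omega⟩)
      (by clear * - h1 h2 ha hb hc; omega)
      (by clear * - h1 h3 hb hc; omega)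
    refine ⟨x :: u, ⟨?_, ?_, ?_, ?_⟩, by simp [l], by rw [S_cons, x1, e1]; ring,
      by rw [S_cons, x2, e2]; ring, by rw [S_cons, x3, e3]; ring, ?_⟩
    · intro y hy'
      rcases List.mem_cons.mp hy' with rfl | h
      · rfl
      · exact s1 y h
    · refine List.pairwise_cons.mpr ⟨fun y hy' => ?_, s2⟩
      obtain ⟨y1, y2, -⟩ := hy y hy'
      have := (f_bd y).1
      rw [x1]; clear * - y1 y2 this ha; omega
    · refine List.pairwise_cons.mpr ⟨fun y hy' => ?_, s3⟩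
      obtain ⟨-, -, y1, y2, -⟩ := hy y hy'
      have := (f_bd y).2.1
      rw [x2]; clear * - y1 y2 this hb; omega
    · refine List.pairwise_cons.mpr ⟨fun y hy' => ?_, s4⟩
      obtain ⟨-, -, -, -, -, -, y1, y2, -⟩ := hy y hy'
      rw [x3]; clear * - y1 y2 hc; omega
    · intro y hy'
      rcases List.mem_cons.mp hy' with rfl | h
      · rw [x1, x2, x3]
        refine ⟨by clear * - ha; omega, by clear * - ha; omega, by clear * - hb; omega,
          by clear * - hb; omega, by clear * - hc; omega, by clear * - hc; omega,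
          by clear * - hc; omega, by clear * - hc; omega, by clear * - h1 hb hc; omega⟩
      · obtain ⟨y1, y2, y3, y4, y5, y6, y7, y8, y9⟩ := hy y h
        refine ⟨by clear * - ha y1; omega, by clear * - ha y2; omega, by clear * - hb y3; omega,
          by clear * - hb y4; omega, by clear * - hc y5; omega, by clear * - hc y6; omega,
          by clear * - hc y7; omega, by clear * - hc y8; omega,
          by clear * - h1 hb hc y9; omega⟩

end Pool.Agent.H.MP_3489e4_al
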