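import Pool.Agent.H.MP_3489e4_al.Weak

set_option autoImplicit false

namespace Pool.Agent.H.MP_3489e4_al

open Pool.Agent.Lib.RegKit

variable (r : A → A → Prop)

def SL (w : List A) : Prop :=
  ∀ w' : List A, val w' = val w →
    w.length < w'.length ∨ (w.length = w'.length ∧ (w = w' ∨ List.Lex r w w'))

variable {r}

theorem SL_tail (hr : IsStrictTotalOrder A r) {x : A} {w : List A} (h : SL r (x :: w)) :
    SL r w := by
  intro w' hw
  rcases h (x :: w') (by simp [hw]) with a | ⟨a, b | b⟩
  · left; simpa using a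
  · right; exact ⟨by simpa using a, Or.inl (List.cons.inj b).2⟩
  · right
    refine ⟨by simpa using a, Or.inr ?_⟩
    cases b with
    | rel c => exact (hr.irrefl _ c).elim
    | cons c => exact c

theorem SL_min {w : List A} (h : SL r w) : ¬ Le (val w) (w.length - 1) := by
  intro h1
  obtain ⟨w', a, b⟩ := exact_len _ _ h1
  rcases h w' a with c | ⟨c, _⟩ <;> omega

theorem SL_head (hr : IsStrictTotalOrder A r) {x : A} {w : List A} (h : SL r (x :: w)) (y : A)
    (hy : Le (y.1⁻¹ * val (x :: w)) w.length) : ¬ r y x := by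
  intro hyx
  obtain ⟨w', a, b⟩ := exact_len _ _ hy
  rcases h (y :: w') (by rw [val_cons, a]; simp) with c | ⟨_, c | c⟩
  · simp only [List.length_cons] at c; omega
  · rw [(List.cons.inj c).1] at hyx; exact hr.irrefl _ hyx
  · cases c with
    | rel c => exact hr.irrefl _ (hr.trans _ _ _ c hyx)
    | cons c => exact hr.irrefl _ hyx

theorem tail_val (x : A) (w : List A) : val w = x.1⁻¹ * val (x :: w) := by simp

theorem run0 (hr : IsStrictTotalOrder A r) (y : A) (b c : ℤ) (hy : y.1 = ⟨1, b, c, false⟩)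
    (hs : Step 1 b c) (hmin : ∀ x : A, x.1.p = 1 → ¬ r y x → x = y) (ht : r y lt) (k : ℕ) :
    ∀ (w : List A) (p z q : ℤ), SL r w → val w = ⟨p, z, q, false⟩ →
      -(p - 2 * k - 2) ≤ z → z ≤ p - 2 * k - 2 → -(p - 2 * k - 2) ≤ q → q ≤ p - 2 * k - 2 →
      (p + 3 ≤ z - q ∨ z - q ≤ -(p + 3)) → ∃ w', w = List.replicate k y ++ w' := by
  induction k with
  | zero => intro w _ _ _ _ _ _ _ _ _ _; exact ⟨w, rfl⟩
  | succ k ih =>
    intro w p z q h hv h1 h2 h3 h4 h5
    have l1 := Le_val w
    have l2 := SL_min h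
    rw [hv] at l1 l2
    simp only [Le_f, Bx] at l1 l2
    have hl : (w.length : ℤ) = p + 2 := by omega
    cases w with
    | nil => simp at hl; omega
    | cons x w =>
      have hl' : (w.length : ℤ) = p + 1 := by simp only [List.length_cons] at hl; omega
      have a1 := SL_head hr h y (by
        rw [hv, hy, hl']; simp only [mk_inv_f, mk_mul_f, Le_f, Bx, Step] at hs ⊢; omega)
      have a2 := Le_val w
      rw [tail_val x w, hv, hl'] at a2
      have hx : x = y := by
        rcases A_cases x with rfl | ⟨a', b', c', e, hs'⟩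
        · exact (a1 ht).elim
        · refine hmin x ?_ a1
          rw [e] at a2 ⊢
          simp only [mk_inv_f, mk_mul_f, Le_f, Bx, Step] at hs' a2 ⊢; omega
      subst hx
      simp only [Step] at hs
      obtain ⟨w', hw'⟩ := ih w (p - 1) (z - b) (q - c) (SL_tail hr h)
        (by rw [tail_val x w, hv, hy]; simp only [mk_inv_f, mk_mul_f]; ext <;> simp <;> ring)
        (by omega) (by omega) (by omega) (by omega) (by omega)
      exact ⟨w', by rw [hw']; rfl⟩

theorem run1 (hr : IsStrictTotalOrder A r) (y : A) (b c : ℤ) (hy : y.1 = ⟨1, b, c, false⟩)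
    (hs : Step 1 b c) (hmin : ∀ x : A, x.1.p = 1 → ¬ r y x → x = y) (k : ℕ) :
    ∀ (w : List A) (p z q : ℤ), SL r w → val w = ⟨p, z, q, true⟩ →
      -(p - 2 * k - 2) ≤ z → z ≤ p - 2 * k - 2 → -(p - 2 * k - 2) ≤ q → q ≤ p - 2 * k - 2 →
      (p + k + 1 ≤ z + q ∨ z + q ≤ -(p + k + 1)) → ∃ w', w = List.replicate k y ++ w' := by
  induction k with
  | zero => intro w _ _ _ _ _ _ _ _ _ _; exact ⟨w, rfl⟩
  | succ k ih =>
    intro w p z q h hv h1 h2 h3 h4 h5
    have l1 := Le_val w
    have l2 := SL_min h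
    rw [hv] at l1 l2
    simp only [Le_t, Bx] at l1 l2
    have hl : (w.length : ℤ) = p + 1 := by omega
    cases w with
    | nil => simp at hl; omega
    | cons x w =>
      have hl' : (w.length : ℤ) = p := by simp only [List.length_cons] at hl; omega
      have a1 := SL_head hr h y (by
        rw [hv, hy, hl']; simp only [mk_inv_f, mk_mul_f, Le_t, Bx, Step] at hs ⊢; omega)
      have a2 := Le_val w
      rw [tail_val x w, hv, hl'] at a2
      have hx : x = y := by
        rcases A_cases x with rfl | ⟨a', b', c', e, hs'⟩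
        · exfalso
          simp only [lt_val, mk_inv_t, mk_mul_t, Bool.not_true, Le_f, Bx] at a2; omega
        · refine hmin x ?_ a1
          rw [e] at a2 ⊢
          simp only [mk_inv_f, mk_mul_f, Le_t, Bx, Step] at hs' a2 ⊢; omega
      subst hx
      simp only [Step] at hs
      obtain ⟨w', hw'⟩ := ih w (p - 1) (z - b) (q - c) (SL_tail hr h)
        (by rw [tail_val x w, hv, hy]; simp only [mk_inv_f, mk_mul_f]; ext <;> simp <;> ring)
        (by omega) (by omega) (by omega) (by omega) (by omega)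
      exact ⟨w', by rw [hw']; rfl⟩

theorem pow_f (p z q : ℤ) (i : ℕ) :
    (⟨p, z, q, false⟩ : K) ^ i = ⟨i * p, i * z, i * q, false⟩ := by
  induction i with
  | zero => ext <;> simp
  | succ i ih => rw [pow_succ, ih, mk_mul_f]; ext <;> simp <;> ring

theorem window (N m : ℕ) (hm : 0 < m) (hN : m ≤ N) :
    ∃ j, 2 * N + 4 ≤ j * m ∧ j * m ≤ 3 * N + 4 := by
  refine ⟨(2 * N + 4) / m + 1, ?_, ?_⟩
  · have := Nat.lt_div_mul_add (a := 2 * N + 4) hm
    rw [add_mul]; omega
  · have := Nat.div_mul_le_self (2 * N + 4) m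
    rw [add_mul]; omega

theorem not_reg (hr : IsStrictTotalOrder A r) (hreg : Reg (SL r))
    (hon : ∀ g, ∃ w, SL r w ∧ val w = g) : False := by
  have hwf : WellFounded r := by
    have := hr
    exact Finite.wellFounded_of_trans_of_irrefl r
  obtain ⟨y, hy1, hy2⟩ := hwf.has_min {x : A | x.1.p = 1}
    ⟨⟨⟨1, 0, 0, false⟩, (mem_X _).mpr (Or.inr ⟨rfl, by simp [Step]⟩)⟩, rfl⟩
  have hmin : ∀ x : A, x.1.p = 1 → ¬ r y x → x = y :=
    fun x hx h => hr.trichotomous x y (hy2 x hx) h
  obtain ⟨b, c, hy, hs⟩ : ∃ b c, y.1 = ⟨1, b, c, false⟩ ∧ Step 1 b c := by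
    rcases A_cases y with rfl | ⟨a, b, c, e, hs⟩
    · simp at hy1
    · have : a = 1 := by have := hy1; simp only [Set.mem_ofPred_eq, e] at this; exact this
      subst this
      exact ⟨b, c, e, hs⟩
  obtain ⟨N, hN⟩ := pump_rep hreg
  have hs' := hs
  simp only [Step] at hs'
  by_cases ht : r y lt
  · obtain ⟨s, hs1⟩ : ∃ s : ℤ, (s = 4 * N + 12 ∧ b - c ≤ 0) ∨ (s = -(4 * N + 12) ∧ 0 ≤ b - c) := by
      rcases le_total (b - c) 0 with h | h
      · exact ⟨_, Or.inl ⟨rfl, h⟩⟩
      · exact ⟨_, Or.inr ⟨rfl, h⟩⟩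
    obtain ⟨w, h, hv⟩ := hon ⟨6 * N + 20, s, -s, false⟩
    obtain ⟨w', rfl⟩ := run0 hr y b c hy hs hmin ht N w _ _ _ h hv (by omega) (by omega)
      (by omega) (by omega) (by omega)
    obtain ⟨m, m1, m2, hp⟩ := hN [] w' y h
    obtain ⟨j, j1, j2⟩ := window N m m1 m2
    have h2 := SL_min (hp j)
    have l1 := Le_val (List.replicate N y ++ w')
    rw [hv] at l1
    generalize j * m = J at *
    have e : val ([] ++ List.replicate (N + J) y ++ w') =
        y.1 ^ J * val (List.replicate N y ++ w') := by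
      rw [add_comm]; simp [pow_add, mul_assoc]
    rw [e, hv, hy, pow_f] at h2
    simp only [mk_mul_f, Le_f, Bx, List.length_append, List.length_replicate, List.length_nil]
      at h2 l1
    have hb : b = -1 ∨ b = 0 ∨ b = 1 := by omega
    have hc : c = -1 ∨ c = 0 ∨ c = 1 := by omega
    rcases hb with rfl | rfl | rfl <;> rcases hc with rfl | rfl | rfl <;> omega
  · have ht' : r lt y := by
      by_contra h
      have := hr.trichotomous y lt ht h
      rw [this] at hy1; simp at hy1
    obtain ⟨s, hs1⟩ : ∃ s : ℤ, (s = 4 * N + 12 ∧ b + c ≤ 0) ∨ (s = -(4 * N + 12) ∧ 0 ≤ b + c) := by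
      rcases le_total (b + c) 0 with h | h
      · exact ⟨_, Or.inl ⟨rfl, h⟩⟩
      · exact ⟨_, Or.inr ⟨rfl, h⟩⟩
    obtain ⟨w, h, hv⟩ := hon ⟨6 * N + 20, s, -s, false⟩
    have l1 := Le_val w
    have l2 := SL_min h
    rw [hv] at l1 l2
    simp only [Le_f, Bx] at l1 l2
    have hl : (w.length : ℤ) = 6 * N + 22 := by omega
    clear l1 l2
    cases w with
    | nil => simp at hl; omega
    | cons x w =>
      have hl' : (w.length : ℤ) = 6 * N + 21 := by simp only [List.length_cons] at hl; omega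
      have a1 := SL_head hr h lt (by
        rw [hv, hl']; simp only [lt_val, mk_inv_t, mk_mul_t, Bool.not_false, Le_t, Bx]; omega)
      have a2 := Le_val w
      rw [tail_val x w, hv, hl'] at a2
      have hx : x = lt := by
        rcases A_cases x with rfl | ⟨a', b', c', e, hs2⟩
        · rfl
        · exfalso
          have hp : x.1.p = 1 := by
            rw [e] at a2 ⊢
            simp only [mk_inv_f, mk_mul_f, Le_f, Bx, Step] at hs2 a2 ⊢; omega
          by_cases hyx : r y x
          · exact a1 (hr.trans _ _ _ ht' hyx)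
          · rw [hmin x hp hyx] at a1; exact a1 ht'
      subst hx
      have hv' : val w = ⟨6 * N + 20, s, s, true⟩ := by
        rw [tail_val lt w, hv]; simp [mk_inv_t, mk_mul_t]
      obtain ⟨w', rfl⟩ := run1 hr y b c hy hs hmin N w _ _ _ (SL_tail hr h) hv' (by omega)
        (by omega) (by omega) (by omega) (by omega)
      obtain ⟨m, m1, m2, hp⟩ := hN [lt] w' y h
      obtain ⟨j, j1, j2⟩ := window N m m1 m2
      have h2 := SL_min (hp j)
      generalize j * m = J at *
      have e : val ([lt] ++ List.replicate (N + J) y ++ w') =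
          lt.1 * (y.1 ^ J * val (List.replicate N y ++ w')) := by
        rw [add_comm]; simp [pow_add, mul_assoc]
      rw [e, hv', hy, pow_f] at h2
      simp only [lt_val, mk_mul_f, mk_mul_t, Bool.not_true, Le_f, Bx, List.length_append,
        List.length_replicate, List.length_singleton] at h2 hl'
      have hb : b = -1 ∨ b = 0 ∨ b = 1 := by omega
      have hc : c = -1 ∨ c = 0 ∨ c = 1 := by omega
      rcases hb with rfl | rfl | rfl <;> rcases hc with rfl | rfl | rfl <;> omega

end Pool.Agent.H.MP_3489e4_al
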