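import Pool.Agent.H.MP_3489e4_al.Grp

set_option autoImplicit false

namespace Pool.Agent.H.MP_3489e4_al

open Pool.Agent.Lib.RegKit

def F (u : List A) (k : ℕ) : Prop := Z fp u ≤ k ∨ Z fz u ≤ k ∨ Z fq u ≤ k

def C2 (u : List A) : ℕ := u.countP (fun a => fz a + fq a = 2 ∨ fz a + fq a = -2)

def Fa (u : List A) : Prop := Shape u ∧ F u 0
def Fb (u : List A) : Prop :=
  Shape u ∧ F u 1 ∧ ((∀ y ∈ u, 1 ≤ fz y - fq y) ∨ ∀ y ∈ u, fz y - fq y ≤ -1)
def Fe (u : List A) : Prop :=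
  Shape u ∧ F u 0 ∧ ((∀ y ∈ u, 1 ≤ fz y + fq y) ∨ ∀ y ∈ u, fz y + fq y ≤ -1) ∧ ¬ C2 u ≤ 1

def LL (w : List A) : Prop :=
  Fa w ∨ Fb w ∨ (∃ u, Fa u ∧ w = u ++ [lt]) ∨ (∃ u, Fa u ∧ w = lt :: u) ∨
    (∃ v, (∃ u, Fe u ∧ v = u ++ [lt]) ∧ w = lt :: v)

theorem reg_shape : Reg Shape :=
  (reg_all _).and ((reg_pairwise _).and ((reg_pairwise _).and (reg_pairwise _)))

theorem reg_F (k : ℕ) : Reg (fun u => F u k) :=
  (reg_count _ k).or ((reg_count _ k).or (reg_count _ k))

theorem reg_LL : Reg LL := by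
  have ha : Reg Fa := reg_shape.and (reg_F 0)
  have hb : Reg Fb := reg_shape.and ((reg_F 1).and ((reg_all _).or (reg_all _)))
  have he : Reg Fe :=
    reg_shape.and ((reg_F 0).and (((reg_all _).or (reg_all _)).and (reg_count _ 1).not))
  exact ha.or (hb.or ((ha.snoc lt).or ((ha.cons lt).or ((he.snoc lt).cons lt))))

theorem shape_facts (u : List A) (h : Shape u) :
    val u = ⟨S fp u, S fz u, S fq u, false⟩ ∧ (S fp u).natAbs + Z fp u = u.length ∧
      (S fz u).natAbs + Z fz u = u.length ∧ (S fq u).natAbs + Z fq u = u.length ∧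
      ∀ i : ℕ, val (u.take i) = ⟨cl (S fp u) i, cl (S fz u) i,
        S fq u - cl (S fq u) (u.length - i : ℕ), false⟩ := by
  obtain ⟨h1, h2, h3, h4⟩ := h
  obtain ⟨a1, a2⟩ := track fp (fun a => (f_bd a).1) u h2
  obtain ⟨b1, b2⟩ := track fz (fun a => (f_bd a).2.1) u h3
  obtain ⟨c1, c2⟩ := track' fq (fun a => (f_bd a).2.2) u h4
  refine ⟨val_free u h1, a1, b1, c1, fun i => ?_⟩
  rw [val_free _ (fun y hy => h1 y (List.mem_of_mem_take hy)), a2, b2, c2]

theorem S_add (f g : A → ℤ) (u : List A) : S (fun a => f a + g a) u = S f u + S g u := by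
  induction u with
  | nil => simp
  | cons x u ih => simp only [S_cons, ih]; ring

theorem S_sub (f g : A → ℤ) (u : List A) : S (fun a => f a - g a) u = S f u - S g u := by
  induction u with
  | nil => simp
  | cons x u ih => simp only [S_cons, ih]; ring

theorem C2_pos (u : List A) (h : ∀ y ∈ u, 1 ≤ fz y + fq y) :
    S fz u + S fq u = u.length + C2 u := by
  induction u with
  | nil => simp [C2]
  | cons x u ih =>
    have h1 := ih (fun y hy => h y (List.mem_cons_of_mem _ hy))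
    have h2 := h x List.mem_cons_self
    have h3 := f_bd x
    simp only [S_cons, C2, List.countP_cons, List.length_cons, decide_eq_true_eq] at h1 ⊢
    split_ifs <;> omega

theorem C2_neg (u : List A) (h : ∀ y ∈ u, fz y + fq y ≤ -1) :
    S fz u + S fq u = -(u.length + C2 u) := by
  induction u with
  | nil => simp [C2]
  | cons x u ih =>
    have h1 := ih (fun y hy => h y (List.mem_cons_of_mem _ hy))
    have h2 := h x List.mem_cons_self
    have h3 := f_bd x
    simp only [S_cons, C2, List.countP_cons, List.length_cons, decide_eq_true_eq] at h1 ⊢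
    split_ifs <;> omega

theorem LL_min (w : List A) (h : LL w) : ¬ Le (val w) (w.length - 1) := by
  rcases h with ⟨h, hF⟩ | ⟨h, hF, hs⟩ | ⟨u, ⟨h, hF⟩, rfl⟩ | ⟨u, ⟨h, hF⟩, rfl⟩ |
    ⟨_, ⟨u, ⟨h, hF, hs, hc⟩, rfl⟩, rfl⟩
  · obtain ⟨a0, a1, a2, a3, -⟩ := shape_facts w h
    rw [a0]; simp only [Le_f, Bx, F] at hF ⊢; omega
  · obtain ⟨a0, a1, a2, a3, -⟩ := shape_facts w h
    have : (w.length : ℤ) ≤ S fz w - S fq w ∨ S fz w - S fq w ≤ -w.length := by
      rw [← S_sub]
      rcases hs with hs | hs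
      · left; simpa using S_ge _ 1 w hs
      · right; simpa using S_le _ (-1) w hs
    rw [a0]; simp only [Le_f, Bx, F] at hF ⊢; omega
  · obtain ⟨a0, a1, a2, a3, -⟩ := shape_facts u h
    rw [val_append, a0]
    simp only [val_cons, val_nil, mul_one, lt_val, mk_mul_f, Le_t, Bx, F, List.length_append,
      List.length_singleton] at hF ⊢
    omega
  · obtain ⟨a0, a1, a2, a3, -⟩ := shape_facts u h
    rw [val_cons, a0]
    simp only [lt_val, mk_mul_t, Bool.not_false, Le_t, Bx, F, List.length_cons] at hF ⊢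
    omega
  · obtain ⟨a0, a1, a2, a3, -⟩ := shape_facts u h
    have : S fz u + S fq u = u.length + C2 u ∨ S fz u + S fq u = -(u.length + C2 u) :=
      hs.imp (C2_pos u) (C2_neg u)
    rw [val_cons, val_append, a0]
    simp only [val_cons, val_nil, mul_one, lt_val, mk_mul_f, mk_mul_t, Bool.not_true, Le_f, Bx, F,
      List.length_append, List.length_cons, List.length_nil] at hF ⊢
    omega

theorem build' (n : ℕ) (k : ℕ) (p z q : ℤ) (h1 : Bx p z q n)
    (h2 : p = n ∨ p = -n ∨ (n : ℤ) ≤ z.natAbs + q.natAbs)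
    (h3 : (0 ≤ z ∧ 0 ≤ q) ∨ (z ≤ 0 ∧ q ≤ 0) ∨ (z.natAbs + q.natAbs : ℤ) ≤ n)
    (h4 : n ≤ p.natAbs + k ∨ n ≤ z.natAbs + k ∨ n ≤ q.natAbs + k) :
    ∃ u : List A, Shape u ∧ F u k ∧ u.length = n ∧ val u = ⟨p, z, q, false⟩ ∧
      S fz u = z ∧ S fq u = q ∧
      ∀ y ∈ u, (0 ≤ z → 0 ≤ fz y) ∧ (z ≤ 0 → fz y ≤ 0) ∧
        (0 ≤ q → 0 ≤ fq y) ∧ (q ≤ 0 → fq y ≤ 0) ∧
        ((n : ℤ) ≤ z.natAbs + q.natAbs → fz y ≠ 0 ∨ fq y ≠ 0) := by
  obtain ⟨u, s, l, e1, e2, e3, hy⟩ := build n p z q h1 h2 h3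
  obtain ⟨a0, a1, a2, a3, -⟩ := shape_facts u s
  rw [e1, e2, e3] at a0
  rw [e1] at a1; rw [e2] at a2; rw [e3] at a3
  refine ⟨u, s, by simp only [F]; omega, l, a0, e2, e3, fun y h => ?_⟩
  obtain ⟨-, -, y3, y4, y5, y6, -, -, y9⟩ := hy y h
  exact ⟨y3, y4, y5, y6, y9⟩

def Mx (g : K) : ℕ := max g.p.natAbs (max g.z.natAbs g.q.natAbs)

theorem LL_onto (g : K) : ∃ w, LL w ∧ val w = g := by
  obtain ⟨p, z, q, e⟩ := g
  obtain ⟨n, hn⟩ : ∃ n : ℕ, n = max p.natAbs (max z.natAbs q.natAbs) := ⟨_, rfl⟩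
  have b1 : Bx p z q n := by simp only [Bx]; omega
  have b2 : Bx p z (-q) n := by simp only [Bx]; omega
  by_cases h : (0 ≤ z ∧ 0 ≤ q) ∨ (z ≤ 0 ∧ q ≤ 0) ∨ (z.natAbs + q.natAbs : ℤ) ≤ n
  · obtain ⟨u, s, f, -, v, -⟩ := build' n 0 p z q b1 (by omega) h (by omega)
    cases e
    · exact ⟨u, Or.inl ⟨s, f⟩, v⟩
    · refine ⟨_, Or.inr (Or.inr (Or.inl ⟨u, ⟨s, f⟩, rfl⟩)), ?_⟩
      rw [val_append, v]; simp [mk_mul_f]
  · obtain ⟨u, s, f, l, v, e2, e3, hy⟩ := build' n 0 p z (-q) b2 (by omega) (by omega) (by omega)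
    cases e
    · by_cases h2 : (z.natAbs + q.natAbs : ℤ) = n + 1
      · obtain ⟨u, s, f, -, v, -, -, hy⟩ := build' (n + 1) 1 p z q (by simp only [Bx]; omega)
          (by omega) (by omega) (by omega)
        refine ⟨u, Or.inr (Or.inl ⟨s, f, ?_⟩), v⟩
        rcases le_total 0 z with hz | hz
        · left; intro y hy'
          obtain ⟨y1, -, -, y4, y5⟩ := hy y hy'
          have := y1 hz; have := y4 (by omega); have := y5 (by omega); omega
        · right; intro y hy'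
          obtain ⟨-, y1, y4, -, y5⟩ := hy y hy'
          have := y1 hz; have := y4 (by omega); have := y5 (by omega); omega
      · refine ⟨_, Or.inr (Or.inr (Or.inr (Or.inr ⟨_, ⟨u, ⟨s, f, ?_⟩, rfl⟩, rfl⟩))), ?_⟩
        · rcases le_total 0 z with hz | hz
          · have : ∀ y ∈ u, 1 ≤ fz y + fq y := by
              intro y hy'
              obtain ⟨y1, -, y4, -, y5⟩ := hy y hy'
              have := y1 hz; have := y4 (by omega); have := y5 (by omega); omega
            refine ⟨Or.inl this, ?_⟩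
            have := C2_pos u this
            omega
          · have : ∀ y ∈ u, fz y + fq y ≤ -1 := by
              intro y hy'
              obtain ⟨-, y1, -, y4, y5⟩ := hy y hy'
              have := y1 hz; have := y4 (by omega); have := y5 (by omega); omega
            refine ⟨Or.inr this, ?_⟩
            have := C2_neg u this
            omega
        · rw [val_cons, val_append, v]; simp [mk_mul_f, mk_mul_t]
    · refine ⟨_, Or.inr (Or.inr (Or.inr (Or.inl ⟨u, ⟨s, f⟩, rfl⟩))), ?_⟩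
      rw [val_cons, v]; simp [mk_mul_t]

theorem exact_len (g : K) (n : ℤ) (h : Le g n) : ∃ w : List A, val w = g ∧ (w.length : ℤ) ≤ n := by
  obtain ⟨w, h1, rfl⟩ := LL_onto g
  refine ⟨w, rfl, ?_⟩
  by_contra h2
  exact LL_min w h1 (Le_mono h (by omega))

def Cl (x y c : ℤ) : Prop := x - y ≤ c ∧ y - x ≤ c

def Near (g h : K) (i : ℕ) : Prop :=
  Cl h.p (cl g.p i) 1 ∧ Cl h.z (cl g.z i) 1 ∧ Cl h.q (g.q - cl g.q (Mx g - i : ℕ)) 1

theorem cl_lip (x y : ℤ) (i j : ℕ) (a b : ℤ) (h1 : Cl x y a) (h2 : Cl i j b) :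
    Cl (cl x i) (cl y j) (a + b) := by
  simp only [Cl, cl] at *; omega

theorem cl_neg (x : ℤ) (i : ℕ) : cl (-x) i = -cl x i := by simp only [cl]; omega

theorem near_u (u : List A) (h : Shape u) (hF : F u 1) (i : ℕ) :
    Near (val u) (val (u.take i)) i := by
  obtain ⟨a0, a1, a2, a3, a4⟩ := shape_facts u h
  rw [a0, a4]
  refine ⟨by simp [Cl], by simp [Cl], ?_⟩
  have := cl_lip (S fq u) (S fq u) (u.length - i) (Mx ⟨S fp u, S fz u, S fq u, false⟩ - i) 0 1
    (by simp [Cl]) (by simp only [Cl, Mx, F] at hF ⊢; omega)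
  simp only [Cl] at this ⊢; omega

theorem near_u0 (u : List A) (h : Shape u) (hF : F u 0) (i : ℕ) :
    Near (lt.1 * val u) (lt.1 * val (u.take (i - 1))) i := by
  obtain ⟨a0, a1, a2, a3, a4⟩ := shape_facts u h
  rw [a0, a4]
  simp only [lt_val, mk_mul_t, Near, zero_add, zero_sub, cl_neg]
  have b1 := cl_lip (S fp u) (S fp u) (i - 1) i 0 1 (by simp [Cl]) (by simp only [Cl]; omega)
  have b2 := cl_lip (S fz u) (S fz u) (i - 1) i 0 1 (by simp [Cl]) (by simp only [Cl]; omega)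
  have b3 := cl_lip (S fq u) (S fq u) (u.length - (i - 1))
    (Mx ⟨S fp u, S fz u, -S fq u, !false⟩ - i) 0 1
    (by simp [Cl]) (by simp only [Cl, Mx, F] at hF ⊢; omega)
  simp only [Cl] at b1 b2 b3 ⊢; omega

theorem near_mul (g h : K) (i : ℕ) (H : Near g h i) :
    Near (g * lt.1) h i ∧ Near (g * lt.1) (h * lt.1) i := by
  simpa [Near, Mx] using H

theorem take_snoc (u : List A) (i : ℕ) :
    (u ++ [lt]).take i = u.take i ∨ (u ++ [lt]).take i = u.take i ++ [lt] := by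
  rcases le_or_gt i u.length with h | h
  · left; rw [List.take_append_of_le_length h]
  · right; rw [List.take_of_length_le (by simp; omega), List.take_of_length_le (by omega)]

theorem near_LL (w : List A) (h : LL w) (i : ℕ) : Near (val w) (val (w.take i)) i := by
  have hz : ∀ g : K, Near g (lt.1 * 1) 0 → Near g 1 0 := by
    intro g hg; simpa [Near] using hg
  rcases h with ⟨h, hF⟩ | ⟨h, hF, hs⟩ | ⟨u, ⟨h, hF⟩, rfl⟩ | ⟨u, ⟨h, hF⟩, rfl⟩ |
    ⟨_, ⟨u, ⟨h, hF, hs, hc⟩, rfl⟩, rfl⟩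
  · exact near_u w h (by simp only [F] at hF ⊢; omega) i
  · exact near_u w h hF i
  · have := near_mul _ _ _ (near_u u h (by simp only [F] at hF ⊢; omega) i)
    rcases take_snoc u i with e | e <;> rw [e]
    · simpa using this.1
    · simpa using this.2
  · have := near_u0 u h hF i
    cases i with
    | zero => exact hz _ (by simpa using this)
    | succ i => simpa using this
  · have := near_mul _ _ _ (near_u0 u h hF i)
    cases i with
    | zero => exact hz _ (by simpa [mul_assoc] using this.1)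
    | succ i =>
      rw [List.take_succ_cons]
      rcases take_snoc u i with e | e <;> rw [e]
      · simpa [mul_assoc] using this.1
      · simpa [mul_assoc] using this.2

theorem ft (x : K) (hx : x ∈ Box 1) (u v : List A) (hu : LL u) (hv : LL v)
    (h : val u * x = val v) (i : ℕ) : (val (u.take i))⁻¹ * val (v.take i) ∈ Box 5 := by
  obtain ⟨a1, a2, a3⟩ := near_LL u hu i
  obtain ⟨b1, b2, b3⟩ := near_LL v hv i
  rw [← h] at b1 b2 b3
  generalize val u = g at *
  generalize val (u.take i) = k at *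
  generalize val (v.take i) = k' at *
  simp only [Box, Set.mem_ofPred_eq] at hx
  have c1 : Cl g.p (g * x).p 1 := by simp only [Cl, mul_p]; omega
  have c2 : Cl g.z (g * x).z 1 := by simp only [Cl, mul_z]; omega
  have c3 : Cl g.q (g * x).q 1 := by simp only [Cl, mul_q]; split_ifs <;> omega
  generalize g * x = g' at *
  have d1 := cl_lip _ _ i i 1 0 c1 (by simp [Cl])
  have d2 := cl_lip _ _ i i 1 0 c2 (by simp [Cl])
  have d3 := cl_lip _ _ (Mx g - i) (Mx g' - i) 1 1 c3 (by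
    simp only [Cl, Mx] at c1 c2 c3 ⊢; omega)
  simp only [Cl] at *
  simp only [Box, Set.mem_ofPred_eq, mul_p, mul_z, mul_q, inv_p, inv_z, inv_q, inv_e]
  split_ifs <;> omega

end Pool.Agent.H.MP_3489e4_al
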